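import Pool.Agent.H45.EGH.S3

/-!
# EGH, module KRO

Kronecker's normal form of a pencil of injective maps from dimension 3 to dimension 4.
-/

set_option autoImplicit false

namespace Pool.EGH

open MvPolynomial

/-- A binary cubic form has a linear factor. -/
private theorem fac3 {K : Type} [Field K] [IsAlgClosed K] {b₀ b₁ b₂ b₃ : K}
    (hb : ¬ (b₀ = 0 ∧ b₁ = 0 ∧ b₂ = 0 ∧ b₃ = 0)) : ∃ s t p₀ p₁ p₂ : K,
    ¬ (s = 0 ∧ t = 0) ∧ ¬ (p₀ = 0 ∧ p₁ = 0 ∧ p₂ = 0) ∧ b₀ = s * p₀ ∧ b₁ = s * p₁ + t * p₀ ∧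
      b₂ = s * p₂ + t * p₁ ∧ b₃ = t * p₂ := by
  by_cases h3 : b₃ = 0
  · refine ⟨1, 0, b₀, b₁, b₂, fun h => one_ne_zero h.1, fun h => hb ⟨h.1, h.2.1, h.2.2, h3⟩,
      ?_, ?_, ?_, ?_⟩
    · ring
    · ring
    · ring
    · rw [h3, zero_mul]
  · obtain ⟨r, hr⟩ := IsAlgClosed.exists_root (Polynomial.C b₃ * Polynomial.X ^ 3 +
      Polynomial.C b₂ * Polynomial.X ^ 2 + Polynomial.C b₁ * Polynomial.X + Polynomial.C b₀) (by
        rw [Polynomial.degree_cubic h3]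
        norm_num)
    have h1 : b₃ * r ^ 3 + b₂ * r ^ 2 + b₁ * r + b₀ = 0 := by
      have h2 := hr
      rw [Polynomial.IsRoot.def] at h2
      simpa using h2
    refine ⟨-r, 1, b₁ + r * (b₂ + r * b₃), b₂ + r * b₃, b₃, fun h => one_ne_zero h.2,
      fun h => h3 h.2.2, ?_, ?_, ?_, ?_⟩
    · linear_combination h1
    · ring
    · ring
    · ring

/-- A binary quadratic form has a linear factor. -/
private theorem fac2 {K : Type} [Field K] [IsAlgClosed K] {b₀ b₁ b₂ : K}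
    (hb : ¬ (b₀ = 0 ∧ b₁ = 0 ∧ b₂ = 0)) : ∃ s t p₀ p₁ : K,
    ¬ (s = 0 ∧ t = 0) ∧ ¬ (p₀ = 0 ∧ p₁ = 0) ∧ b₀ = s * p₀ ∧ b₁ = s * p₁ + t * p₀ ∧
      b₂ = t * p₁ := by
  by_cases h3 : b₂ = 0
  · refine ⟨1, 0, b₀, b₁, fun h => one_ne_zero h.1, fun h => hb ⟨h.1, h.2, h3⟩, ?_, ?_, ?_⟩
    · ring
    · ring
    · rw [h3, zero_mul]
  · obtain ⟨r, hr⟩ := IsAlgClosed.exists_root (Polynomial.C b₂ * Polynomial.X ^ 2 +
      Polynomial.C b₁ * Polynomial.X + Polynomial.C b₀) (by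
        rw [Polynomial.degree_quadratic h3]
        norm_num)
    have h1 : b₂ * r ^ 2 + b₁ * r + b₀ = 0 := by
      have h2 := hr
      rw [Polynomial.IsRoot.def] at h2
      simpa using h2
    refine ⟨-r, 1, b₁ + r * b₂, b₂, fun h => one_ne_zero h.2, fun h => h3 h.2, ?_, ?_, ?_⟩
    · linear_combination h1
    · ring
    · ring

/-- **Kronecker's normal form.** -/
theorem t_kro : KROStmt := by
  intro K _ _ C U _ _ _ _ hC hU τ₁ τ₂ hτ
  haveI : Module.Finite K C := Module.finite_of_finrank_pos (by rw [hC]; norm_num)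
  haveI : Module.Finite K U := Module.finite_of_finrank_pos (by rw [hU]; norm_num)
  have hinj : ∀ (s t : K) (c : C), ¬ (s = 0 ∧ t = 0) → s • τ₁ c + t • τ₂ c = 0 → c = 0 :=
    fun s t c hst h => (hτ s t c h).resolve_right hst
  -- the chain
  obtain ⟨Ψ, hΨ⟩ : ∃ Ψ : C × C × C →ₗ[K] U × U, ∀ a b c, Ψ (a, b, c) =
      (τ₂ a - τ₁ b, τ₂ b - τ₁ c) := by
    refine ⟨LinearMap.prod (τ₂ ∘ₗ LinearMap.fst K C (C × C) -
      τ₁ ∘ₗ LinearMap.fst K C C ∘ₗ LinearMap.snd K C (C × C))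
      (τ₂ ∘ₗ LinearMap.fst K C C ∘ₗ LinearMap.snd K C (C × C) -
      τ₁ ∘ₗ LinearMap.snd K C C ∘ₗ LinearMap.snd K C (C × C)), fun a b c => rfl⟩
  have hker : LinearMap.ker Ψ ≠ ⊥ := LinearMap.ker_ne_bot_of_finrank_lt (by
    rw [Module.finrank_prod, Module.finrank_prod, Module.finrank_prod, hC, hU]
    norm_num)
  obtain ⟨⟨e₁, e₂, e₃⟩, he, hne⟩ := (Submodule.ne_bot_iff _).1 hker
  rw [LinearMap.mem_ker, hΨ, Prod.mk_eq_zero] at he
  obtain ⟨h12, h23⟩ := he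
  have h12' : τ₂ e₁ = τ₁ e₂ := sub_eq_zero.1 h12
  have h23' : τ₂ e₂ = τ₁ e₃ := sub_eq_zero.1 h23
  -- the vectors of `C`
  have hE : ∀ p₀ p₁ p₂ : K, p₀ • e₁ + p₁ • e₂ + p₂ • e₃ = 0 → p₀ = 0 ∧ p₁ = 0 ∧ p₂ = 0 := by
    intro p₀ p₁ p₂ hp
    by_contra hcon
    obtain ⟨s, t, q₀, q₁, hst, hq, r0, r1, r2⟩ := fac2 hcon
    have a1 : τ₁ (p₀ • e₁ + p₁ • e₂ + p₂ • e₃) = 0 := by rw [hp, map_zero]
    have a2 : τ₂ (p₀ • e₁ + p₁ • e₂ + p₂ • e₃) = 0 := by rw [hp, map_zero]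
    have k1 : q₀ • e₁ + q₁ • e₂ = 0 := by
      refine hinj s t _ hst ?_
      rw [← a1]
      simp only [map_add, map_smul, h12', h23', r0, r1, r2, smul_add, smul_smul, add_smul]
      abel
    have k2 : q₀ • e₂ + q₁ • e₃ = 0 := by
      refine hinj s t _ hst ?_
      rw [← a2]
      simp only [map_add, map_smul, h12', h23', r0, r1, r2, smul_add, smul_smul, add_smul]
      abel
    have z1 : e₁ = 0 := by
      refine hinj q₀ q₁ _ hq ?_
      have : τ₁ (q₀ • e₁ + q₁ • e₂) = 0 := by rw [k1, map_zero]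
      rw [← this, map_add, map_smul, map_smul, h12']
    have z2 : e₂ = 0 := by
      refine hinj q₀ q₁ _ hq ?_
      have : τ₁ (q₀ • e₂ + q₁ • e₃) = 0 := by rw [k2, map_zero]
      rw [← this, map_add, map_smul, map_smul, h23']
    have z3 : e₃ = 0 := by
      refine hinj q₀ q₁ _ hq ?_
      have : τ₂ (q₀ • e₂ + q₁ • e₃) = 0 := by rw [k2, map_zero]
      rw [← this, map_add, map_smul, map_smul, h23']
    exact hne (by rw [z1, z2, z3]; rfl)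
  -- the vectors of `U`
  have hV : ∀ b₀ b₁ b₂ b₃ : K, b₀ • τ₁ e₁ + b₁ • τ₁ e₂ + b₂ • τ₁ e₃ + b₃ • τ₂ e₃ = 0 →
      b₀ = 0 ∧ b₁ = 0 ∧ b₂ = 0 ∧ b₃ = 0 := by
    intro b₀ b₁ b₂ b₃ hb
    by_contra hcon
    obtain ⟨s, t, p₀, p₁, p₂, hst, hp, r0, r1, r2, r3⟩ := fac3 hcon
    have k1 : p₀ • e₁ + p₁ • e₂ + p₂ • e₃ = 0 := by
      refine hinj s t _ hst ?_
      rw [← hb]
      simp only [map_add, map_smul, h12', h23', r0, r1, r2, r3, smul_add, smul_smul, add_smul]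
      abel
    exact hp (hE _ _ _ k1)
  have li1 : LinearIndependent K (![e₁, e₂, e₃] : Fin 3 → C) := by
    rw [Fintype.linearIndependent_iff]
    intro g hg
    rw [Fin.sum_univ_three] at hg
    obtain ⟨x0, x1, x2⟩ := hE (g 0) (g 1) (g 2) hg
    intro i
    fin_cases i
    · exact x0
    · exact x1
    · exact x2
  have li2 : LinearIndependent K (![τ₁ e₁, τ₁ e₂, τ₁ e₃, τ₂ e₃] : Fin 4 → U) := by
    rw [Fintype.linearIndependent_iff]
    intro g hg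
    rw [Fin.sum_univ_four] at hg
    obtain ⟨x0, x1, x2, x3⟩ := hV (g 0) (g 1) (g 2) (g 3) hg
    intro i
    fin_cases i
    · exact x0
    · exact x1
    · exact x2
    · exact x3
  refine ⟨basisOfLinearIndependentOfCardEqFinrank li1 (by rw [hC, Fintype.card_fin]),
    basisOfLinearIndependentOfCardEqFinrank li2 (by rw [hU, Fintype.card_fin]), fun i => ?_⟩
  rw [coe_basisOfLinearIndependentOfCardEqFinrank, coe_basisOfLinearIndependentOfCardEqFinrank]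
  fin_cases i
  · exact ⟨rfl, h12'⟩
  · exact ⟨rfl, h23'⟩
  · exact ⟨rfl, rfl⟩

end Pool.EGH
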