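import Pool.Agent.H45.EGH.S1

/-!
# EGH, module LSY

No linear syzygies between the quadrics of a complete intersection.
-/

set_option autoImplicit false

namespace Pool.EGH

open MvPolynomial

namespace LSYp

variable {K : Type} [Field K] {N : ℕ}

theorem cmp_gen {f z : PR K N} {d : ℕ} (hf : f ∈ fm K N d) (n : ℕ) :
    homogeneousComponent n (z * f) = ∑ i ∈ Finset.range (z.totalDegree + 1),
      if n = i + d then homogeneousComponent i z * f else 0 := by
  conv_lhs => rw [← sum_homogeneousComponent z]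
  rw [Finset.sum_mul, map_sum]
  refine Finset.sum_congr rfl fun i _ => ?_
  exact homogeneousComponent_of_mem (IsHomogeneous.mul (homogeneousComponent_isHomogeneous i z)
    ((mem_homogeneousSubmodule d f).1 hf))

/-- The components of a multiple of a form. -/
theorem cmp_mul {f z : PR K N} {d : ℕ} (hf : f ∈ fm K N d) (n : ℕ) :
    homogeneousComponent (n + d) (z * f) = homogeneousComponent n z * f := by
  rw [cmp_gen hf]
  by_cases h : n ∈ Finset.range (z.totalDegree + 1)
  · rw [Finset.sum_eq_single_of_mem n h fun i _ hi => if_neg (by omega), if_pos rfl]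
  · rw [Finset.sum_eq_zero fun i hi => if_neg (by
      intro h1
      have h2 : n = i := by omega
      exact h (h2 ▸ hi)), homogeneousComponent_eq_zero, zero_mul]
    rw [Finset.mem_range] at h
    omega

theorem cmp_lt {f z : PR K N} {d n : ℕ} (hf : f ∈ fm K N d) (h : n < d) :
    homogeneousComponent n (z * f) = 0 := by
  rw [cmp_gen hf]
  exact Finset.sum_eq_zero fun i _ => if_neg (by omega)

theorem cmp_self {f : PR K N} {d : ℕ} (hf : f ∈ fm K N d) : homogeneousComponent d f = f := by
  rw [homogeneousComponent_of_mem hf, if_pos rfl]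

/-- The shape of a mixed complete intersection. -/
theorem aux (h : HGAStmt) {k r : ℕ} {Q : Ideal (PR K N)} (hQ : MCI k r Q) :
    ∃ (J : Ideal (PR K N)) (q : Fin r → PR K N), J ≤ Q ∧ Hg J ∧
      J = Ideal.span {l : PR K N | l ∈ fm K N 1 ∧ l ∈ J} ∧
      Q = J ⊔ Ideal.span (Set.range q) ∧ (∀ j, q j ∈ fm K N 2) ∧
      (∀ a : Fin r → PR K N, (∀ j, a j ∈ fm K N 1) → ∑ j, a j * q j ∈ J → ∀ j, a j ∈ J) ∧
      ∀ l ∈ fm K N 1, l ∈ Q → l ∈ J := by
  induction hQ with
  | zero =>
    refine ⟨⊥, Fin.elim0, le_rfl, (h K N).1, ?_, ?_, fun j => j.elim0, fun a _ _ j => j.elim0,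
      fun l _ hl => hl⟩
    · refine le_antisymm bot_le (Ideal.span_le.2 fun l hl => hl.2)
    · rw [Set.range_eq_empty, Ideal.span_empty, sup_bot_eq]
  | @lin k J l hJ hl hR ih =>
    obtain ⟨J₀, q₀, -, -, e3, e4, -⟩ := ih
    have hJe : J = J₀ := by
      rw [e4, Set.range_eq_empty, Ideal.span_empty, sup_bot_eq]
    refine ⟨J ⊔ Ideal.span {l}, Fin.elim0, le_rfl, (h K N).2.2.2 _ _ _ (MCI.lin hJ hl hR), ?_, ?_,
      fun j => j.elim0, fun a _ _ j => j.elim0, fun l _ hl => hl⟩
    · refine le_antisymm (sup_le ?_ ?_) (Ideal.span_le.2 fun l hl => hl.2)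
      · conv_lhs => rw [hJe, e3]
        refine Ideal.span_mono fun x hx => ⟨hx.1, ?_⟩
        rw [hJe]
        exact Ideal.mem_sup_left hx.2
      · refine Ideal.span_le.2 fun x hx => Ideal.subset_span ⟨?_, ?_⟩
        · rw [Set.mem_singleton_iff.1 hx]
          exact hl
        · exact Ideal.mem_sup_right (Ideal.subset_span hx)
    · rw [Set.range_eq_empty, Ideal.span_empty, sup_bot_eq]
  | @quad k r Q q' hJ hq' hR ih =>
    obtain ⟨J, q, f1, f2, f3, f4, f5, f6, f7⟩ := ih
    have hQg : Hg Q := (h K N).2.2.2 _ _ _ hJ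
    have hqQ : ∀ j, q j ∈ Q := fun j => by
      rw [f4]
      exact Ideal.mem_sup_right (Ideal.subset_span ⟨j, rfl⟩)
    refine ⟨J, Fin.snoc q q', f1.trans le_sup_left, f2, f3, ?_, fun j => ?_,
      fun a ha hs => ?_, fun l hl hlQ => ?_⟩
    · have e1 : Set.range (Fin.snoc q q' : Fin (r + 1) → PR K N) = Set.range q ∪ {q'} := by
        ext x
        constructor
        · rintro ⟨j, rfl⟩
          refine Fin.lastCases ?_ (fun j => ?_) j
          · rw [Fin.snoc_last]
            exact Or.inr rfl
          · rw [Fin.snoc_castSucc]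
            exact Or.inl ⟨j, rfl⟩
        · rintro (⟨j, rfl⟩ | hx)
          · exact ⟨j.castSucc, Fin.snoc_castSucc _ _ _⟩
          · rw [Set.mem_singleton_iff.1 hx]
            exact ⟨Fin.last r, Fin.snoc_last _ _⟩
      rw [e1, Ideal.span_union, ← sup_assoc, ← f4]
    · refine Fin.lastCases ?_ (fun j => ?_) j
      · rw [Fin.snoc_last]
        exact hq'
      · rw [Fin.snoc_castSucc]
        exact f5 j
    · rw [Fin.sum_univ_castSucc, Fin.snoc_last] at hs
      have e1 : ∀ j : Fin r, (Fin.snoc q q' : Fin (r + 1) → PR K N) j.castSucc = q j := fun j =>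
        Fin.snoc_castSucc _ _ _
      simp only [e1] at hs
      have h1 : a (Fin.last r) * q' ∈ Q := by
        have h2 : ∑ j : Fin r, a j.castSucc * q j ∈ Q :=
          Ideal.sum_mem _ fun j _ => Ideal.mul_mem_left _ _ (hqQ j)
        have h3 := Ideal.sub_mem _ (f1 hs) h2
        rwa [add_sub_cancel_left] at h3
      have h2 : a (Fin.last r) ∈ J := by
        refine f7 _ (ha _) (hR _ ?_)
        rw [mul_comm]
        exact h1
      have h3 : ∑ j : Fin r, a j.castSucc * q j ∈ J := by
        have h4 := Ideal.sub_mem _ hs (Ideal.mul_mem_right q' _ h2)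
        rwa [add_sub_cancel_right] at h4
      have h4 := f6 (fun j => a j.castSucc) (fun j => ha _) h3
      intro j
      exact Fin.lastCases h2 (fun j => h4 j) j
    · refine f7 l hl ?_
      obtain ⟨x, hx, y, hy, hxy⟩ := Submodule.mem_sup.1 hlQ
      obtain ⟨c, hc⟩ := Ideal.mem_span_singleton'.1 hy
      have h1 : homogeneousComponent 1 l = homogeneousComponent 1 x := by
        rw [← hxy, ← hc, map_add, cmp_lt hq' (by norm_num), add_zero]
      rw [← cmp_self hl, h1]
      exact hQg x hx 1

end LSYp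

open LSYp in
/-- **LSY.** -/
theorem t_lsy (h : HGAStmt) : LSYStmt := by
  intro K _ N k r Q L hQ hL hLQ t p a hp hind ha hsum
  obtain ⟨J, q, f1, f2, f3, f4, f5, f6, f7⟩ := aux h hQ
  have hJL : Ideal.span (L : Set (PR K N)) = J := by
    rw [f3]
    congr 1
    ext l
    constructor
    · intro hl
      have h1 : l ∈ fm K N 1 := hL hl
      exact ⟨h1, f7 l h1 ((hLQ l h1).2 hl)⟩
    · rintro ⟨h1, h2⟩
      exact (hLQ l h1).1 (f1 h2)
  rw [hJL] at hind hsum
  -- the matrix
  have hM : ∀ i, ∃ M : Fin r → K, p i - ∑ j, M j • q j ∈ J := by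
    intro i
    have h1 : p i ∈ J ⊔ Ideal.span (Set.range q) := f4 ▸ (hp i).2
    obtain ⟨x, hx, y, hy, hxy⟩ := Submodule.mem_sup.1 h1
    obtain ⟨c, hc⟩ := Ideal.mem_span_range_iff_exists_fun.1 hy
    refine ⟨fun j => coeff 0 (c j), ?_⟩
    have h2 : p i - ∑ j, coeff 0 (c j) • q j = homogeneousComponent 2 x := by
      rw [← cmp_self (hp i).1, ← hxy, ← hc, map_add, map_sum]
      have h3 : ∀ j, homogeneousComponent 2 (c j * q j) = coeff 0 (c j) • q j := fun j => by
        have h4 := cmp_mul (z := c j) (f5 j) 0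
        rw [zero_add] at h4
        rw [h4, homogeneousComponent_zero, smul_eq_C_mul]
      rw [Finset.sum_congr rfl fun j _ => h3 j, add_sub_cancel_right]
    rw [h2]
    exact f2 x hx 2
  choose M hM using hM
  -- the linear map
  obtain ⟨T, hT⟩ : ∃ T : (Fin t → K) →ₗ[K] (Fin r → K), ∀ x j, T x j = ∑ i, x i * M i j := by
    refine ⟨{ toFun := fun x j => (∑ i, x i * M i j)
              map_add' := fun x y => ?_
              map_smul' := fun c x => ?_ }, fun x j => rfl⟩
    · funext j
      simp only [Pi.add_apply, add_mul, Finset.sum_add_distrib]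
    · funext j
      simp only [Pi.smul_apply, smul_eq_mul, RingHom.id_apply, Finset.mul_sum, mul_assoc]
  have hker : LinearMap.ker T = ⊥ := by
    rw [LinearMap.ker_eq_bot']
    intro x hx
    refine hind x ?_
    have h1 : ∑ i, x i • p i = ∑ i, x i • (p i - ∑ j, M i j • q j) := by
      have h2 : ∑ i, x i • ∑ j, M i j • q j = 0 := by
        simp only [Finset.smul_sum, smul_smul]
        rw [Finset.sum_comm]
        refine Finset.sum_eq_zero fun j _ => ?_
        rw [← Finset.sum_smul, ← hT, hx, Pi.zero_apply, zero_smul]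
      simp only [smul_sub, Finset.sum_sub_distrib, h2, sub_zero]
    rw [h1]
    refine Ideal.sum_mem _ fun i _ => ?_
    rw [smul_eq_C_mul]
    exact Ideal.mul_mem_left _ _ (hM i)
  obtain ⟨S, hS⟩ := T.exists_leftInverse_of_injective hker
  -- the syzygies
  have hb : ∀ j, ∑ i, M i j • a i ∈ L := by
    have hlin : ∀ j, ∑ i, M i j • a i ∈ fm K N 1 := fun j =>
      Submodule.sum_mem _ fun i _ => Submodule.smul_mem _ _ (ha i)
    have h1 : ∑ j, (∑ i, M i j • a i) * q j ∈ J := by
      have h2 : ∑ i, a i * p i - ∑ i, a i * (p i - ∑ j, M i j • q j) =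
          ∑ j, (∑ i, M i j • a i) * q j := by
        rw [← Finset.sum_sub_distrib]
        simp only [mul_sub, sub_sub_cancel, Finset.mul_sum, Finset.sum_mul]
        rw [Finset.sum_comm]
        refine Finset.sum_congr rfl fun j _ => Finset.sum_congr rfl fun i _ => ?_
        rw [mul_smul_comm, smul_mul_assoc]
      rw [← h2]
      exact Ideal.sub_mem _ hsum (Ideal.sum_mem _ fun i _ => Ideal.mul_mem_left _ _ (hM i))
    have h2 := f6 _ hlin h1
    exact fun j => (hLQ _ (hlin j)).1 (f1 (h2 j))
  intro k'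
  have hk : a k' = ∑ j, S (Pi.single j 1) k' • ∑ i, M i j • a i := by
    have h1 : ∀ i, ∑ j, M i j * S (Pi.single j 1) k' = (Pi.single i (1 : K) : Fin t → K) k' := by
      intro i
      have h2 : S (T (Pi.single i 1)) = Pi.single i 1 := LinearMap.congr_fun hS _
      have h3 : T (Pi.single i 1) = ∑ j, M i j • (Pi.single j (1 : K) : Fin r → K) := by
        funext j
        rw [hT, Finset.sum_apply]
        simp [Pi.single_apply]
      rw [h3, map_sum] at h2
      rw [← h2, Finset.sum_apply]
      refine Finset.sum_congr rfl fun j _ => ?_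
      rw [map_smul, Pi.smul_apply, smul_eq_mul]
    simp only [Finset.smul_sum, smul_smul]
    rw [Finset.sum_comm]
    have h4 : ∀ i, ∑ j, (S (Pi.single j 1) k' * M i j) • a i =
        (Pi.single i (1 : K) : Fin t → K) k' • a i := by
      intro i
      rw [← Finset.sum_smul, ← h1]
      congr 1
      exact Finset.sum_congr rfl fun j _ => mul_comm _ _
    rw [Finset.sum_congr rfl fun i _ => h4 i]
    simp [Pi.single_apply]
  rw [hk]
  exact Submodule.sum_mem _ fun j _ => Submodule.smul_mem _ _ (hb j)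

end Pool.EGH
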