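import Pool.Agent.H45.EGH.S3

/-!
# EGH, module NR4

No reducible quadric kills a four dimensional space with too small growth.
-/

set_option autoImplicit false

namespace Pool.EGH

open MvPolynomial

/-- **NR4.** -/
theorem t_nr4 (h0 : GPMStmt) (h1 : ANIStmt) (h2 : R94Stmt) (h3 : RK4Stmt) : NR4Stmt := by
  intro K _ _ Q U hU l hl m hm hl0 hm0
  haveI : Infinite K := IsAlgClosed.instInfinite
  by_contra hcon
  push Not at hcon
  obtain ⟨f, hf, rfl⟩ := hl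
  obtain ⟨g, hg, rfl⟩ := hm
  obtain ⟨a1, a2, a3⟩ := h1 K 6 6 Q hU.ci 2 3 1 (by norm_num) U hU.le
  obtain ⟨-, -, b3⟩ := h1 K 6 6 Q hU.ci 2 4 0 (by norm_num) U hU.le
  rw [(h0 K 6 Q).2.2.1 U, hU.dim] at b3
  have a4 : EGH.hf (anI Q U) 3 = 9 := a3.trans (h3 K Q U hU).1
  have hfQ : f ∉ Q := fun h => hl0 (Ideal.Quotient.eq_zero_iff_mem.2 h)
  have hgQ : g ∉ Q := fun h => hm0 (Ideal.Quotient.eq_zero_iff_mem.2 h)
  have h5 := h2 K 6 Q (anI Q U) f g hU.ci a1 a2 hf hg hfQ hgQ (fun v hv => by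
    rw [map_mul]
    exact hcon v hv) a4
  omega

end Pool.EGH
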