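import Pool.Agent.H45.EGH.S2

/-!
# EGH, module RQE

Existence of a reducible quadric in an ideal.
-/

set_option autoImplicit false

namespace Pool.EGH

open MvPolynomial

/-- **RQE.** -/
theorem t_rqe (h1 : HOPStmt) (h2 : GPMStmt) (h3 : GPDStmt) : RQEStmt := by
  intro K _ _ N n Q I hQ hI hQI hn hle
  obtain ⟨fQ, -, -, mQ⟩ := h2 K N Q
  obtain ⟨fI, -, -, mI⟩ := h2 K N I
  haveI := fQ 1
  haveI := fI 2
  have dQ : Module.finrank K ↥(gp Q 1) = n := by
    rw [(h3 K N Q).2 n hQ 1, Nat.choose_one_right]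
  have dI : Module.finrank K ↥(gp I 2) = hf I 2 := (h3 K N I).1 hI 2
  have hmem : ∀ x ∈ gp Q 1, ∃ l ∈ fm K N 1, Ideal.Quotient.mk Q l = x := by
    rintro x ⟨l, hl, rfl⟩
    exact ⟨l, hl, rfl⟩
  have hmul : ∀ x y : ↥(gp Q 1),
      Ideal.Quotient.factor hQI ((x : PR K N ⧸ Q) * (y : PR K N ⧸ Q)) ∈ gp I 2 := by
    intro x y
    obtain ⟨l, hl, hx⟩ := hmem x x.2
    obtain ⟨m, hm, hy⟩ := hmem y y.2
    rw [← hx, ← hy, ← map_mul, Ideal.Quotient.factor_mk]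
    refine mI 2 (l * m) ?_
    exact IsHomogeneous.mul hl hm
  have hsm : ∀ (c : K) (z : PR K N ⧸ Q),
      Ideal.Quotient.factor hQI (c • z) = c • Ideal.Quotient.factor hQI z := by
    intro c z
    obtain ⟨f, rfl⟩ := Ideal.Quotient.mk_surjective z
    have e1 : c • Ideal.Quotient.mk Q f = Ideal.Quotient.mk Q (c • f) := rfl
    rw [e1, Ideal.Quotient.factor_mk, Ideal.Quotient.factor_mk]
    rfl
  obtain ⟨β, hβ⟩ : ∃ β : ↥(gp Q 1) →ₗ[K] ↥(gp Q 1) →ₗ[K] ↥(gp I 2), ∀ x y,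
      (β x y : PR K N ⧸ I) = Ideal.Quotient.factor hQI (x * y) := by
    refine ⟨LinearMap.mk₂ K (fun x y => ⟨_, hmul x y⟩) ?_ ?_ ?_ ?_, fun x y => rfl⟩
    · intro x x' y
      apply Subtype.ext
      show Ideal.Quotient.factor hQI (((x + x' : ↥(gp Q 1)) : PR K N ⧸ Q) * y) =
        Ideal.Quotient.factor hQI (x * y) + Ideal.Quotient.factor hQI (x' * y)
      rw [Submodule.coe_add, add_mul, map_add]
    · intro c x y
      apply Subtype.ext
      show Ideal.Quotient.factor hQI (((c • x : ↥(gp Q 1)) : PR K N ⧸ Q) * y) =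
        c • Ideal.Quotient.factor hQI (x * y)
      rw [Submodule.coe_smul, smul_mul_assoc, hsm]
    · intro x y y'
      apply Subtype.ext
      show Ideal.Quotient.factor hQI ((x : PR K N ⧸ Q) * ((y + y' : ↥(gp Q 1)) : PR K N ⧸ Q)) =
        Ideal.Quotient.factor hQI (x * y) + Ideal.Quotient.factor hQI (x * y')
      rw [Submodule.coe_add, mul_add, map_add]
    · intro c x y
      apply Subtype.ext
      show Ideal.Quotient.factor hQI ((x : PR K N ⧸ Q) * ((c • y : ↥(gp Q 1)) : PR K N ⧸ Q)) =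
        c • Ideal.Quotient.factor hQI (x * y)
      rw [Submodule.coe_smul, mul_smul_comm, hsm]
  obtain ⟨x, y, hx, hy, hxy⟩ := h1 K ↥(gp Q 1) ↥(gp Q 1) ↥(gp I 2) β (by rw [dQ]; exact hn)
    (by rw [dQ]; exact hn) (by rw [dQ, dI]; omega)
  obtain ⟨l, hl, hlx⟩ := hmem x x.2
  obtain ⟨m, hm, hmy⟩ := hmem y y.2
  refine ⟨l, m, hl, hm, fun h => hx ?_, fun h => hy ?_, ?_⟩
  · apply Subtype.ext
    rw [← hlx, Ideal.Quotient.eq_zero_iff_mem.2 h]
    rfl
  · apply Subtype.ext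
    rw [← hmy, Ideal.Quotient.eq_zero_iff_mem.2 h]
    rfl
  · have h4 := hβ x y
    rw [hxy, ← hlx, ← hmy, ← map_mul, Ideal.Quotient.factor_mk] at h4
    exact Ideal.Quotient.eq_zero_iff_mem.1 h4.symm

end Pool.EGH
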