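import Pool.Agent.H45.EGH.S3

/-!
# EGH, module R11

The dimension of the product with the quadrics.
-/

set_option autoImplicit false

namespace Pool.EGH

open MvPolynomial

/-- **R11.** -/
theorem t_r11 (h0 : GPMStmt) (h1 : ANIStmt) (h2 : RQEStmt) (h3 : NR4Stmt) : R11Stmt := by
  intro K _ _ Q U hU
  haveI : Infinite K := IsAlgClosed.instInfinite
  by_contra hcon
  obtain ⟨a1, a2, a3⟩ := h1 K 6 6 Q hU.ci 2 2 2 (by norm_num) U hU.le
  obtain ⟨l, m, hl, hm, hlQ, hmQ, hlm⟩ := h2 K 6 6 Q (anI Q U) hU.ci a1 a2 (by norm_num) (by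
    omega)
  obtain ⟨v, hv, hne⟩ := h3 K Q U hU (Ideal.Quotient.mk Q l) ((h0 K 6 Q).2.2.2 1 l hl)
    (Ideal.Quotient.mk Q m) ((h0 K 6 Q).2.2.2 1 m hm)
    (fun h => hlQ (Ideal.Quotient.eq_zero_iff_mem.1 h))
    (fun h => hmQ (Ideal.Quotient.eq_zero_iff_mem.1 h))
  refine hne ?_
  have h4 := hlm v hv
  rw [map_mul] at h4
  exact h4

end Pool.EGH
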